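import Mathlib

/-!
# A modified maximal function on an arbitrary metric space

For a finite Borel measure `μ` on a metric space (no doubling, no separability) put
`maxFn μ f x = sup_{0 < r ≤ 1} μ(closedBall x (5r))⁻¹ ∫_{ball x r} f dμ`.
It is lower semicontinuous and satisfies the weak `(1,1)` inequality with constant `1` and
`∫ (maxFn μ f)² ≤ 8 ∫ f²`.
-/

open Set MeasureTheory Metric Filter Topology
open scoped ENNReal

namespace Pool.Agent.H90.Recip

variable {X : Type*} [PseudoMetricSpace X] [MeasurableSpace X] [BorelSpace X]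

/-- The modified maximal function. -/
noncomputable def maxFn (μ : Measure X) (f : X → ℝ≥0∞) (x : X) : ℝ≥0∞ :=
  ⨆ (r : ℝ) (_ : 0 < r ∧ r ≤ 1), (∫⁻ y in ball x r, f y ∂μ) / μ (closedBall x (5 * r))

variable {μ : Measure X}

theorem le_maxFn (f : X → ℝ≥0∞) (x : X) {r : ℝ} (h0 : 0 < r) (h1 : r ≤ 1) :
    (∫⁻ y in ball x r, f y ∂μ) / μ (closedBall x (5 * r)) ≤ maxFn μ f x :=
  le_iSup₂_of_le (f := fun (r : ℝ) (_ : 0 < r ∧ r ≤ 1) =>
    (∫⁻ y in ball x r, f y ∂μ) / μ (closedBall x (5 * r))) r ⟨h0, h1⟩ le_rfl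

theorem lt_maxFn_iff [IsFiniteMeasure μ] (f : X → ℝ≥0∞) (x : X) {c : ℝ≥0∞} (hc : c ≠ ∞) :
    c < maxFn μ f x ↔
      ∃ r : ℝ, 0 < r ∧ r ≤ 1 ∧ c * μ (closedBall x (5 * r)) < ∫⁻ y in ball x r, f y ∂μ := by
  unfold maxFn
  simp only [lt_iSup_iff, exists_prop]
  constructor
  · rintro ⟨r, ⟨h0, h1⟩, h⟩
    refine ⟨r, h0, h1, ?_⟩
    exact (ENNReal.lt_div_iff_mul_lt (Or.inr hc) (Or.inl (measure_ne_top _ _))).mp h
  · rintro ⟨r, h0, h1, h⟩
    refine ⟨r, ⟨h0, h1⟩, ?_⟩
    exact (ENNReal.lt_div_iff_mul_lt (Or.inr hc) (Or.inl (measure_ne_top _ _))).mpr h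

/-- superlevel sets are open -/
theorem isOpen_lt_maxFn [IsFiniteMeasure μ] (f : X → ℝ≥0∞) {c : ℝ≥0∞} (hc : c ≠ ∞) :
    IsOpen {x | c < maxFn μ f x} := by
  rw [Metric.isOpen_iff]
  intro x0 hx0
  rw [mem_setOf_eq, lt_maxFn_iff f x0 hc] at hx0
  obtain ⟨r, hr0, hr1, h⟩ := hx0
  obtain ⟨a, ha1, ha2⟩ := exists_between h
  -- measure from above
  have h1 : Tendsto (fun n : ℕ => c * μ (closedBall x0 (5 * r + 1 / (n + 1)))) atTop
      (𝓝 (c * μ (closedBall x0 (5 * r)))) := by
    refine ENNReal.Tendsto.const_mul ?_ (Or.inr hc)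
    have h2 : Tendsto (μ ∘ fun n : ℕ => closedBall x0 (5 * r + 1 / ((n:ℝ) + 1))) atTop
        (𝓝 (μ (⋂ n : ℕ, closedBall x0 (5 * r + 1 / ((n:ℝ) + 1))))) := by
      refine tendsto_measure_iInter_atTop (fun n => measurableSet_closedBall.nullMeasurableSet)
        ?_ ⟨0, measure_ne_top _ _⟩
      intro m n hmn
      apply closedBall_subset_closedBall
      have : 1 / ((n:ℝ) + 1) ≤ 1 / ((m:ℝ) + 1) := Nat.one_div_le_one_div hmn
      linarith
    have h3 : (⋂ n : ℕ, closedBall x0 (5 * r + 1 / ((n:ℝ) + 1))) = closedBall x0 (5 * r) := by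
      ext y
      simp only [mem_iInter, mem_closedBall]
      constructor
      · intro hy
        have : Tendsto (fun n : ℕ => 5 * r + 1 / ((n:ℝ) + 1)) atTop (𝓝 (5 * r + 0)) :=
          tendsto_const_nhds.add tendsto_one_div_add_atTop_nhds_zero_nat
        rw [add_zero] at this
        exact ge_of_tendsto' this hy
      · intro hy n
        have : (0:ℝ) ≤ 1 / ((n:ℝ) + 1) := by positivity
        linarith
    rw [h3] at h2
    exact h2
  -- integral from below
  have h4 : Tendsto (fun n : ℕ => ∫⁻ y in ball x0 (r - 1 / ((n:ℝ) + 1)), f y ∂μ) atTop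
      (𝓝 (∫⁻ y in ball x0 r, f y ∂μ)) := by
    have h2 : Tendsto ((μ.withDensity f) ∘ fun n : ℕ => ball x0 (r - 1 / ((n:ℝ) + 1))) atTop
        (𝓝 ((μ.withDensity f) (⋃ n : ℕ, ball x0 (r - 1 / ((n:ℝ) + 1))))) := by
      refine tendsto_measure_iUnion_atTop ?_
      intro m n hmn
      apply ball_subset_ball
      have : 1 / ((n:ℝ) + 1) ≤ 1 / ((m:ℝ) + 1) := Nat.one_div_le_one_div hmn
      linarith
    have h3 : (⋃ n : ℕ, ball x0 (r - 1 / ((n:ℝ) + 1))) = ball x0 r := by
      ext y
      simp only [mem_iUnion, mem_ball]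
      constructor
      · rintro ⟨n, hn⟩
        have : (0:ℝ) ≤ 1 / ((n:ℝ) + 1) := by positivity
        linarith
      · intro hy
        have h5 : 0 < r - dist y x0 := by linarith
        obtain ⟨n, hn⟩ := exists_nat_one_div_lt h5
        exact ⟨n, by linarith⟩
    rw [h3] at h2
    have h6 : ∀ s, MeasurableSet s → (μ.withDensity f) s = ∫⁻ y in s, f y ∂μ :=
      fun s hs => withDensity_apply f hs
    rw [h6 _ measurableSet_ball] at h2
    refine h2.congr (fun n => ?_)
    exact h6 _ measurableSet_ball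
  have e1 := h1.eventually (gt_mem_nhds ha1)
  have e2 := h4.eventually (lt_mem_nhds ha2)
  obtain ⟨n, hn1, hn2⟩ := (e1.and e2).exists
  refine ⟨1 / ((n:ℝ) + 1), by positivity, fun x hx => ?_⟩
  rw [mem_ball] at hx
  rw [mem_setOf_eq, lt_maxFn_iff f x hc]
  refine ⟨r, hr0, hr1, ?_⟩
  calc c * μ (closedBall x (5 * r)) ≤ c * μ (closedBall x0 (5 * r + 1 / (n + 1))) := by
        gcongr
        apply closedBall_subset_closedBall'
        linarith
    _ < a := hn1
    _ < ∫⁻ y in ball x0 (r - 1 / ((n:ℝ) + 1)), f y ∂μ := hn2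
    _ ≤ ∫⁻ y in ball x r, f y ∂μ := by
        apply lintegral_mono_set
        apply ball_subset_ball'
        rw [dist_comm] at hx
        linarith

theorem lowerSemicontinuous_maxFn [IsFiniteMeasure μ] (f : X → ℝ≥0∞) :
    LowerSemicontinuous (maxFn μ f) := by
  rw [lowerSemicontinuous_iff_isOpen_preimage]
  intro c
  by_cases hc : c = ∞
  · subst hc
    have : maxFn μ f ⁻¹' Ioi ∞ = ∅ := by
      ext x; simp
    rw [this]; exact isOpen_empty
  · exact isOpen_lt_maxFn f hc

theorem measurable_maxFn [IsFiniteMeasure μ] (f : X → ℝ≥0∞) : Measurable (maxFn μ f) :=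
  (lowerSemicontinuous_maxFn f).measurable

/-- Weak type `(1,1)` inequality. -/
theorem mul_meas_lt_maxFn_le [IsFiniteMeasure μ] {f : X → ℝ≥0∞}
    {c : ℝ≥0∞} (hc : c ≠ ∞) :
    c * μ {x | c < maxFn μ f x} ≤ ∫⁻ y, f y ∂μ := by
  classical
  by_cases hfin : ∫⁻ y, f y ∂μ = ∞
  · rw [hfin]; exact le_top
  set t : Set X := {x | c < maxFn μ f x} with ht
  have hex : ∀ x : X, ∃ r : ℝ, x ∈ t →
      0 < r ∧ r ≤ 1 ∧ c * μ (closedBall x (5 * r)) < ∫⁻ y in ball x r, f y ∂μ := by
    intro x
    by_cases hx : x ∈ t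
    · obtain ⟨r, h⟩ := (lt_maxFn_iff f x hc).mp hx
      exact ⟨r, fun _ => h⟩
    · exact ⟨0, fun h => absurd h hx⟩
  choose r hr using hex
  obtain ⟨u, hut, hdis, hcov⟩ := Vitali.exists_disjoint_subfamily_covering_enlargement_closedBall
    t (fun x => x) r 1 (fun a ha => (hr a ha).2.1) 5 (by norm_num)
  -- countability of `u`
  have : IsFiniteMeasure (μ.withDensity f) := isFiniteMeasure_withDensity hfin
  have hcount : u.Countable := by
    have h1 := Measure.countable_meas_pos_of_disjoint_iUnion (μ := μ.withDensity f)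
      (As := fun x : u => closedBall (x : X) (r x)) (fun x => measurableSet_closedBall)
      (by
        intro x y hxy
        exact hdis x.2 y.2 (fun h => hxy (Subtype.ext h)))
    have h2 : {i : u | 0 < (μ.withDensity f) (closedBall (i : X) (r i))} = univ := by
      ext i
      simp only [mem_setOf_eq, mem_univ, iff_true]
      rw [withDensity_apply f measurableSet_closedBall]
      obtain ⟨h0, h1', h2⟩ := hr i (hut i.2)
      calc (0:ℝ≥0∞) ≤ c * μ (closedBall (i:X) (5 * r i)) := zero_le
        _ < ∫⁻ y in ball (i:X) (r i), f y ∂μ := h2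
        _ ≤ ∫⁻ y in closedBall (i:X) (r i), f y ∂μ := lintegral_mono_set ball_subset_closedBall
    rw [h2] at h1
    exact countable_coe_iff.mp (countable_univ_iff.mp h1)
  have hsub : t ⊆ ⋃ x ∈ u, closedBall x (5 * r x) := by
    intro x hx
    obtain ⟨b, hb, hsub⟩ := hcov x hx
    have h0 := (hr x hx).1
    exact mem_biUnion hb (hsub (mem_closedBall_self h0.le))
  have := hcount.to_subtype
  calc c * μ t ≤ c * μ (⋃ x ∈ u, closedBall x (5 * r x)) := by gcongr
    _ ≤ c * ∑' x : u, μ (closedBall (x:X) (5 * r x)) := by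
        gcongr
        exact measure_biUnion_le μ hcount _
    _ = ∑' x : u, c * μ (closedBall (x:X) (5 * r x)) := by rw [ENNReal.tsum_mul_left]
    _ ≤ ∑' x : u, (μ.withDensity f) (closedBall (x:X) (r x)) := by
        refine ENNReal.tsum_le_tsum (fun x => ?_)
        rw [withDensity_apply f measurableSet_closedBall]
        exact ((hr x (hut x.2)).2.2.le).trans (lintegral_mono_set ball_subset_closedBall)
    _ = (μ.withDensity f) (⋃ x : u, closedBall (x:X) (r x)) := by
        rw [measure_iUnion]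
        · intro x y hxy
          exact hdis x.2 y.2 (fun h => hxy (Subtype.ext h))
        · exact fun x => measurableSet_closedBall
    _ ≤ (μ.withDensity f) univ := measure_mono (subset_univ _)
    _ = ∫⁻ y, f y ∂μ := by rw [withDensity_apply f MeasurableSet.univ, Measure.restrict_univ]

/-- `a² = ∫₀^a 2t dt` in `ℝ≥0∞`. -/
theorem sq_eq_lintegral (a : ℝ≥0∞) :
    a ^ 2 = ∫⁻ t in Ioi (0:ℝ), {s : ℝ | ENNReal.ofReal s < a}.indicator
      (fun t => ENNReal.ofReal (2 * t)) t := by
  have hset : ∀ b : ℝ, 0 ≤ b → ∫⁻ t in Ioo (0:ℝ) b, ENNReal.ofReal (2 * t) = ENNReal.ofReal (b ^ 2) := by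
    intro b hb
    rw [← ofReal_integral_eq_lintegral_ofReal]
    · rw [← integral_Ioc_eq_integral_Ioo, ← intervalIntegral.integral_of_le hb]
      rw [intervalIntegral.integral_const_mul, integral_id]
      congr 1; ring
    · exact (Continuous.integrableOn_Icc (by fun_prop)).mono_set Ioo_subset_Icc_self
    · refine (ae_restrict_iff' measurableSet_Ioo).mpr (Eventually.of_forall fun t ht => ?_)
      simp only [Pi.zero_apply]
      linarith [ht.1]
  rcases eq_or_ne a ∞ with ha | ha
  · subst ha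
    have h1 : {s : ℝ | ENNReal.ofReal s < (∞:ℝ≥0∞)} = univ := by
      ext s; simp
    rw [h1]
    simp only [indicator_univ]
    have h2 : ∀ n : ℕ, (n:ℝ≥0∞) ≤ ∫⁻ t in Ioi (0:ℝ), ENNReal.ofReal (2 * t) := by
      intro n
      calc (n:ℝ≥0∞) ≤ ENNReal.ofReal ((n:ℝ) ^ 2) := by
            rw [← ENNReal.ofReal_natCast]
            apply ENNReal.ofReal_le_ofReal
            exact_mod_cast Nat.le_self_pow two_ne_zero n
        _ = ∫⁻ t in Ioo (0:ℝ) n, ENNReal.ofReal (2 * t) := (hset n (by positivity)).symm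
        _ ≤ _ := lintegral_mono_set Ioo_subset_Ioi_self
    have h3 : (∞:ℝ≥0∞) ≤ ∫⁻ t in Ioi (0:ℝ), ENNReal.ofReal (2 * t) := by
      rw [← ENNReal.iSup_natCast]
      exact iSup_le h2
    rw [top_le_iff.mp h3]
    simp
  · lift a to NNReal using ha
    have h1 : ∀ t : ℝ, 0 < t → (ENNReal.ofReal t < (a:ℝ≥0∞) ↔ t < a) := by
      intro t ht
      rw [ENNReal.ofReal, ENNReal.coe_lt_coe, Real.toNNReal_lt_iff_lt_coe ht.le]
    have h2 : ∫⁻ t in Ioi (0:ℝ), {s : ℝ | ENNReal.ofReal s < (a:ℝ≥0∞)}.indicator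
        (fun t => ENNReal.ofReal (2 * t)) t
        = ∫⁻ t in Ioi (0:ℝ), (Iio (a:ℝ)).indicator (fun t => ENNReal.ofReal (2 * t)) t := by
      refine setLIntegral_congr_fun measurableSet_Ioi (fun t ht => ?_)
      simp only [indicator_apply, mem_setOf_eq, mem_Iio, h1 t ht]
    rw [h2, setLIntegral_indicator measurableSet_Iio, Iio_inter_Ioi, hset a a.2]
    have h3 : ENNReal.ofReal ((a:ℝ) ^ 2) = ENNReal.ofReal (a:ℝ) ^ 2 :=
      ENNReal.ofReal_pow a.2 2
    rw [h3, ENNReal.ofReal_coe_nnreal]

/-- Layer cake for squares. -/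
theorem lintegral_sq_eq {α : Type*} [MeasurableSpace α] {ν : Measure α} [SFinite ν]
    {g : α → ℝ≥0∞} (hg : Measurable g) :
    ∫⁻ x, g x ^ 2 ∂ν
      = ∫⁻ t in Ioi (0:ℝ), ENNReal.ofReal (2 * t) * ν {x | ENNReal.ofReal t < g x} := by
  have h1 : ∀ x, g x ^ 2 = ∫⁻ t in Ioi (0:ℝ), {s : ℝ | ENNReal.ofReal s < g x}.indicator
      (fun t => ENNReal.ofReal (2 * t)) t := fun x => sq_eq_lintegral (g x)
  simp_rw [h1]
  have hmeas : Measurable (fun p : α × ℝ => {s : ℝ | ENNReal.ofReal s < g p.1}.indicator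
      (fun t => ENNReal.ofReal (2 * t)) p.2) := by
    have h2 : (fun p : α × ℝ => {s : ℝ | ENNReal.ofReal s < g p.1}.indicator
      (fun t => ENNReal.ofReal (2 * t)) p.2)
      = {p : α × ℝ | ENNReal.ofReal p.2 < g p.1}.indicator
        (fun p => ENNReal.ofReal (2 * p.2)) := by
      ext p
      simp only [indicator_apply, mem_setOf_eq]
    rw [h2]
    refine Measurable.indicator (by fun_prop) ?_
    exact measurableSet_lt (by fun_prop) (by fun_prop)
  rw [lintegral_lintegral_swap hmeas.aemeasurable]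
  refine lintegral_congr (fun t => ?_)
  have h3 : ∀ x, {s : ℝ | ENNReal.ofReal s < g x}.indicator (fun t => ENNReal.ofReal (2 * t)) t
      = {x | ENNReal.ofReal t < g x}.indicator (fun _ => ENNReal.ofReal (2 * t)) x := by
    intro x
    simp only [indicator_apply, mem_setOf_eq]
  simp_rw [h3]
  rw [lintegral_indicator (measurableSet_lt measurable_const hg), lintegral_const,
    Measure.restrict_apply MeasurableSet.univ, univ_inter]

/-- Strong `(2,2)` inequality. -/
theorem lintegral_maxFn_sq_le [IsFiniteMeasure μ] {f : X → ℝ≥0∞} (hf : Measurable f) :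
    ∫⁻ x, maxFn μ f x ^ 2 ∂μ ≤ 8 * ∫⁻ x, f x ^ 2 ∂μ := by
  rw [lintegral_sq_eq (measurable_maxFn f)]
  -- the estimate of the distribution function
  have key : ∀ t : ℝ, 0 < t → ENNReal.ofReal (2 * t) * μ {x | ENNReal.ofReal t < maxFn μ f x}
      ≤ 4 * ∫⁻ x in {x | ENNReal.ofReal (t / 2) < f x}, f x ∂μ := by
    intro t ht
    have hS : MeasurableSet {x | ENNReal.ofReal (t / 2) < f x} := measurableSet_lt measurable_const hf
    set f1 : X → ℝ≥0∞ := {x | ENNReal.ofReal (t / 2) < f x}.indicator f with hf1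
    have hle : ∀ x, f x ≤ f1 x + ENNReal.ofReal (t / 2) := by
      intro x
      simp only [hf1, indicator_apply, mem_setOf_eq]
      split_ifs with h
      · exact le_self_add
      · rw [zero_add]; exact not_lt.mp h
    have hsub : {x | ENNReal.ofReal t < maxFn μ f x} ⊆ {x | ENNReal.ofReal (t / 2) < maxFn μ f1 x} := by
      intro x hx
      simp only [mem_setOf_eq] at hx ⊢
      by_contra hcon
      push Not at hcon
      apply absurd hx
      push Not
      refine iSup₂_le (fun r hr => ?_)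
      have h2 : (∫⁻ y in ball x r, f y ∂μ) ≤ (∫⁻ y in ball x r, f1 y ∂μ)
          + ENNReal.ofReal (t / 2) * μ (closedBall x (5 * r)) := by
        calc (∫⁻ y in ball x r, f y ∂μ) ≤ ∫⁻ y in ball x r, (f1 y + ENNReal.ofReal (t / 2)) ∂μ :=
              lintegral_mono (fun y => hle y)
          _ = (∫⁻ y in ball x r, f1 y ∂μ) + ENNReal.ofReal (t / 2) * μ (ball x r) := by
              rw [lintegral_add_right _ measurable_const, lintegral_const,
                Measure.restrict_apply MeasurableSet.univ, univ_inter]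
          _ ≤ _ := by
              gcongr
              apply ball_subset_closedBall.trans
              apply closedBall_subset_closedBall
              linarith [hr.1]
      calc (∫⁻ y in ball x r, f y ∂μ) / μ (closedBall x (5 * r))
          ≤ ((∫⁻ y in ball x r, f1 y ∂μ)
          + ENNReal.ofReal (t / 2) * μ (closedBall x (5 * r))) / μ (closedBall x (5 * r)) := by
            gcongr
        _ = (∫⁻ y in ball x r, f1 y ∂μ) / μ (closedBall x (5 * r))
          + ENNReal.ofReal (t / 2) * μ (closedBall x (5 * r)) / μ (closedBall x (5 * r)) :=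
            ENNReal.add_div
        _ ≤ maxFn μ f1 x + ENNReal.ofReal (t / 2) := by
            gcongr
            · exact le_maxFn f1 x hr.1 hr.2
            · rw [mul_div_assoc]
              calc ENNReal.ofReal (t / 2) * (μ (closedBall x (5 * r)) / μ (closedBall x (5 * r)))
                  ≤ ENNReal.ofReal (t / 2) * 1 := by
                    gcongr; exact ENNReal.div_self_le_one
                _ = _ := mul_one _
        _ ≤ ENNReal.ofReal (t / 2) + ENNReal.ofReal (t / 2) := by gcongr
        _ = ENNReal.ofReal t := by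
            rw [← ENNReal.ofReal_add (by positivity) (by positivity)]; congr 1; ring
    have hw := mul_meas_lt_maxFn_le (μ := μ) (f := f1) (c := ENNReal.ofReal (t / 2))
      ENNReal.ofReal_ne_top
    calc ENNReal.ofReal (2 * t) * μ {x | ENNReal.ofReal t < maxFn μ f x}
        ≤ ENNReal.ofReal (2 * t) * μ {x | ENNReal.ofReal (t / 2) < maxFn μ f1 x} := by gcongr
      _ = 4 * (ENNReal.ofReal (t / 2) * μ {x | ENNReal.ofReal (t / 2) < maxFn μ f1 x}) := by
          rw [← mul_assoc]
          congr 1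
          rw [show (4:ℝ≥0∞) = ENNReal.ofReal 4 by simp, ← ENNReal.ofReal_mul (by norm_num)]
          congr 1; ring
      _ ≤ 4 * ∫⁻ y, f1 y ∂μ := by gcongr
      _ = _ := by rw [hf1, lintegral_indicator hS]
  calc ∫⁻ t in Ioi (0:ℝ), ENNReal.ofReal (2 * t) * μ {x | ENNReal.ofReal t < maxFn μ f x}
      ≤ ∫⁻ t in Ioi (0:ℝ), 4 * ∫⁻ x in {x | ENNReal.ofReal (t / 2) < f x}, f x ∂μ :=
        setLIntegral_mono' measurableSet_Ioi (fun t ht => key t ht)
    _ = ∫⁻ t in Ioi (0:ℝ), ∫⁻ x, {x | ENNReal.ofReal (t / 2) < f x}.indicator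
          (fun x => 4 * f x) x ∂μ := by
        refine lintegral_congr (fun t => ?_)
        rw [lintegral_indicator (measurableSet_lt measurable_const hf),
          lintegral_const_mul _ hf]
    _ = ∫⁻ x, (∫⁻ t in Ioi (0:ℝ), {x | ENNReal.ofReal (t / 2) < f x}.indicator
          (fun x => 4 * f x) x) ∂μ := by
        rw [lintegral_lintegral_swap]
        have h2 : (Function.uncurry fun (t : ℝ) (x : X) =>
            {x | ENNReal.ofReal (t / 2) < f x}.indicator (fun x => 4 * f x) x)
          = {p : ℝ × X | ENNReal.ofReal (p.1 / 2) < f p.2}.indicator (fun p => 4 * f p.2) := by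
          ext p
          simp only [Function.uncurry, indicator_apply, mem_setOf_eq]
        rw [h2]
        refine (Measurable.indicator (by fun_prop) ?_).aemeasurable
        exact measurableSet_lt (by fun_prop) (by fun_prop)
    _ ≤ ∫⁻ x, 8 * f x ^ 2 ∂μ := by
        refine lintegral_mono (fun x => ?_)
        have h3 : ∀ t : ℝ, {x | ENNReal.ofReal (t / 2) < f x}.indicator (fun x => 4 * f x) x
            = {t : ℝ | ENNReal.ofReal (t / 2) < f x}.indicator (fun _ => 4 * f x) t := by
          intro t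
          simp only [indicator_apply, mem_setOf_eq]
        simp_rw [h3]
        rw [setLIntegral_indicator (measurableSet_lt (by fun_prop) measurable_const),
          lintegral_const, Measure.restrict_apply MeasurableSet.univ, univ_inter]
        rcases eq_or_ne (f x) ∞ with h | h
        · rw [h]; simp
        · have h4 : {t : ℝ | ENNReal.ofReal (t / 2) < f x} ∩ Ioi 0 ⊆ Ioo 0 (2 * (f x).toReal) := by
            rintro t ⟨h5, h6⟩
            simp only [mem_setOf_eq] at h5
            refine ⟨h6, ?_⟩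
            have h7 := (ENNReal.ofReal_lt_iff_lt_toReal (by
              have : (0:ℝ) < t := h6
              positivity) h).mp h5
            linarith
          calc 4 * f x * volume ({t : ℝ | ENNReal.ofReal (t / 2) < f x} ∩ Ioi 0)
              ≤ 4 * f x * volume (Ioo 0 (2 * (f x).toReal)) := by gcongr
            _ = 4 * f x * (2 * f x) := by
                rw [Real.volume_Ioo, sub_zero, ENNReal.ofReal_mul (by norm_num),
                  ENNReal.ofReal_toReal h]
                simp
            _ = 8 * f x ^ 2 := by ring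
    _ = 8 * ∫⁻ x, f x ^ 2 ∂μ := lintegral_const_mul _ (by fun_prop)

end Pool.Agent.H90.Recip
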