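import Mathlib

/-!
# The Poincaré–Miranda theorem on the unit square and crossing of paths

`miranda`: if `f ≤ 0` on the left side, `f ≥ 0` on the right side, `g ≤ 0` on the bottom
and `g ≥ 0` on the top side of the unit square, then `f` and `g` have a common zero.

`paths_cross`: a path from left to right and a path from bottom to top of the square meet.
-/

open Set Real

namespace Pool.Agent.H90.Recip

/-- A continuous function on an interval with `cos (φ y) ≥ 0` stays in one period. -/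
theorem cos_nonneg_period {φ : ℝ → ℝ} (hφ : ContinuousOn φ (Icc 0 1))
    (h : ∀ y ∈ Icc (0:ℝ) 1, 0 ≤ Real.cos (φ y)) :
    ∃ k : ℤ, ∀ y ∈ Icc (0:ℝ) 1, |φ y - 2 * π * k| ≤ π / 2 := by
  have hpi := Real.pi_pos
  -- `k` = nearest integer to `φ 0 / (2π)`
  set k : ℤ := round (φ 0 / (2 * π)) with hk
  have h0 : |φ 0 - 2 * π * k| ≤ π := by
    have h1 := abs_sub_round (φ 0 / (2 * π))
    have h2 : φ 0 - 2 * π * k = (2 * π) * (φ 0 / (2 * π) - round (φ 0 / (2 * π))) := by
      rw [← hk]; field_simp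
    rw [h2, abs_mul, abs_of_pos (by positivity : (0:ℝ) < 2 * π)]
    nlinarith
  have hcos : ∀ y, Real.cos (φ y) = Real.cos |φ y - 2 * π * k| := by
    intro y
    rw [Real.cos_abs]
    have : φ y - 2 * π * k = φ y - k * (2 * π) := by ring
    rw [this, Real.cos_sub_int_mul_two_pi]
  have h0' : |φ 0 - 2 * π * k| ≤ π / 2 := by
    by_contra hcon
    push Not at hcon
    have h1 := h 0 (by simp)
    rw [hcos] at h1
    have h2 : Real.cos |φ 0 - 2 * π * k| < 0 :=
      Real.cos_neg_of_pi_div_two_lt_of_lt hcon (by linarith)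
    linarith
  refine ⟨k, fun y hy => ?_⟩
  by_contra hcon
  push Not at hcon
  -- choose an intermediate value
  set v : ℝ := min (|φ y - 2 * π * k|) π with hv
  have hv1 : π / 2 < v := lt_min hcon (by linarith)
  have hv2 : v ≤ π := min_le_right _ _
  have hcont : ContinuousOn (fun t => |φ t - 2 * π * k|) (Icc 0 y) := by
    have : ContinuousOn φ (Icc 0 y) := hφ.mono (Icc_subset_Icc le_rfl hy.2)
    exact (this.sub continuousOn_const).abs
  have hmem : v ∈ Icc (|φ 0 - 2 * π * k|) (|φ y - 2 * π * k|) :=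
    ⟨by linarith, min_le_left _ _⟩
  obtain ⟨t, ht, htv⟩ := intermediate_value_Icc hy.1 hcont hmem
  have h1 := h t ⟨ht.1, ht.2.trans hy.2⟩
  rw [hcos] at h1
  simp only at htv
  rw [htv] at h1
  have h2 : Real.cos v < 0 := Real.cos_neg_of_pi_div_two_lt_of_lt hv1 (by linarith)
  linarith

/-- **Poincaré–Miranda theorem** in dimension two. -/
theorem miranda {f g : ℝ × ℝ → ℝ}
    (hf : ContinuousOn f (Icc (0:ℝ) 1 ×ˢ Icc (0:ℝ) 1))
    (hg : ContinuousOn g (Icc (0:ℝ) 1 ×ˢ Icc (0:ℝ) 1))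
    (hl : ∀ y ∈ Icc (0:ℝ) 1, f (0, y) ≤ 0) (hr : ∀ y ∈ Icc (0:ℝ) 1, 0 ≤ f (1, y))
    (hb : ∀ x ∈ Icc (0:ℝ) 1, g (x, 0) ≤ 0) (ht : ∀ x ∈ Icc (0:ℝ) 1, 0 ≤ g (x, 1)) :
    ∃ p ∈ Icc (0:ℝ) 1 ×ˢ Icc (0:ℝ) 1, f p = 0 ∧ g p = 0 := by
  classical
  by_contra hcon
  push Not at hcon
  -- the clamping map
  let c : ℝ × ℝ → ℝ × ℝ := fun p => (max 0 (min p.1 1), max 0 (min p.2 1))
  have hc : Continuous c := by fun_prop
  have hcm : ∀ p, c p ∈ Icc (0:ℝ) 1 ×ˢ Icc (0:ℝ) 1 := by
    intro p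
    simp only [c, mem_prod, mem_Icc]
    refine ⟨⟨le_max_left _ _, ?_⟩, ⟨le_max_left _ _, ?_⟩⟩ <;> simp
  have hce : ∀ p ∈ Icc (0:ℝ) 1 ×ˢ Icc (0:ℝ) 1, c p = p := by
    rintro ⟨x, y⟩ ⟨⟨hx0, hx1⟩, ⟨hy0, hy1⟩⟩
    simp only [c]
    simp only at hx0 hx1 hy0 hy1
    rw [min_eq_left hx1, min_eq_left hy1, max_eq_right hx0, max_eq_right hy0]
  let F : ℝ × ℝ → ℂ := fun p => (f (c p) : ℂ) + (g (c p) : ℂ) * Complex.I
  have hFc : Continuous F := by
    have h1 : Continuous (fun p => f (c p)) := hf.comp_continuous hc hcm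
    have h2 : Continuous (fun p => g (c p)) := hg.comp_continuous hc hcm
    exact (Complex.continuous_ofReal.comp h1).add
      ((Complex.continuous_ofReal.comp h2).mul continuous_const)
  have hF0 : ∀ p, F p ≠ 0 := by
    intro p hp
    have h1 : f (c p) = 0 := by
      have := congrArg Complex.re hp; simpa [F] using this
    have h2 : g (c p) = 0 := by
      have := congrArg Complex.im hp; simpa [F] using this
    exact hcon (c p) (hcm p) h1 h2
  obtain ⟨G, ⟨-, hG⟩, -⟩ := Complex.isCoveringMapOn_exp.existsUnique_continuousMap_lifts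
    (A := ℝ × ℝ) ⟨F, hFc⟩ (a₀ := (0, 0)) (e₀ := Complex.log (F (0, 0)))
    (Complex.exp_log (hF0 _)) (fun p => by simpa using hF0 p)
  have hGc : Continuous G := G.continuous
  set θ : ℝ × ℝ → ℝ := fun p => (G p).im with hθ
  have hθc : Continuous θ := Complex.continuous_im.comp hGc
  have hfθ : ∀ p ∈ Icc (0:ℝ) 1 ×ˢ Icc (0:ℝ) 1, f p = Real.exp (G p).re * Real.cos (θ p) := by
    intro p hp
    have h1 : Complex.exp (G p) = F p := congrFun hG p
    have h2 := congrArg Complex.re h1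
    simp only [F, Complex.exp_re, Complex.add_re, Complex.ofReal_re,
      Complex.mul_re, Complex.I_re, Complex.ofReal_im, Complex.I_im, hce p hp] at h2
    simp only [hθ]
    linarith
  have hgθ : ∀ p ∈ Icc (0:ℝ) 1 ×ˢ Icc (0:ℝ) 1, g p = Real.exp (G p).re * Real.sin (θ p) := by
    intro p hp
    have h1 : Complex.exp (G p) = F p := congrFun hG p
    have h2 := congrArg Complex.im h1
    simp only [F, Complex.exp_im, Complex.add_im, Complex.ofReal_im,
      Complex.mul_im, Complex.I_re, Complex.ofReal_re, Complex.I_im, hce p hp] at h2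
    simp only [hθ]
    linarith
  have hexp : ∀ p, 0 < Real.exp (G p).re := fun p => Real.exp_pos _
  have z1 : (0:ℝ) ∈ Icc (0:ℝ) 1 := by simp
  have o1 : (1:ℝ) ∈ Icc (0:ℝ) 1 := by simp
  -- left side
  obtain ⟨k0, hk0⟩ := cos_nonneg_period (φ := fun y => θ (0, y) - π)
    (by fun_prop) (by
      intro y hy
      have h1 := hl y hy
      rw [hfθ (0, y) ⟨z1, hy⟩] at h1
      have h2 : Real.cos (θ (0, y)) ≤ 0 := by
        by_contra h3; push Not at h3
        have := mul_pos (hexp (0, y)) h3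
        linarith
      rw [Real.cos_sub_pi]; linarith)
  -- bottom
  obtain ⟨k1, hk1⟩ := cos_nonneg_period (φ := fun x => θ (x, 0) + π / 2)
    (by fun_prop) (by
      intro x hx
      have h1 := hb x hx
      rw [hgθ (x, 0) ⟨hx, z1⟩] at h1
      have h2 : Real.sin (θ (x, 0)) ≤ 0 := by
        by_contra h3; push Not at h3
        have := mul_pos (hexp (x, 0)) h3
        linarith
      rw [Real.cos_add_pi_div_two]; linarith)
  -- right
  obtain ⟨k2, hk2⟩ := cos_nonneg_period (φ := fun y => θ (1, y))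
    (by fun_prop) (by
      intro y hy
      have h1 := hr y hy
      rw [hfθ (1, y) ⟨o1, hy⟩] at h1
      by_contra h3; push Not at h3
      have := mul_neg_of_pos_of_neg (hexp (1, y)) h3
      linarith)
  -- top
  obtain ⟨k3, hk3⟩ := cos_nonneg_period (φ := fun x => θ (x, 1) - π / 2)
    (by fun_prop) (by
      intro x hx
      have h1 := ht x hx
      rw [hgθ (x, 1) ⟨hx, o1⟩] at h1
      rw [Real.cos_sub_pi_div_two]
      by_contra h3; push Not at h3
      have := mul_neg_of_pos_of_neg (hexp (x, 1)) h3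
      linarith)
  have hpi := Real.pi_pos
  have a00 := abs_le.mp (hk0 0 z1)
  have b00 := abs_le.mp (hk1 0 z1)
  have b10 := abs_le.mp (hk1 1 o1)
  have c10 := abs_le.mp (hk2 0 z1)
  have c11 := abs_le.mp (hk2 1 o1)
  have d11 := abs_le.mp (hk3 1 o1)
  have d01 := abs_le.mp (hk3 0 z1)
  have a01 := abs_le.mp (hk0 1 o1)
  have e1 : (k0:ℝ) < k1 := by nlinarith
  have e2 : (k1:ℝ) < k2 + 1 := by nlinarith
  have e3 : (k2:ℝ) < k3 + 1 := by nlinarith
  have e4 : (k3:ℝ) < k0 + 1 := by nlinarith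
  have e1' : k0 < k1 := by exact_mod_cast e1
  have e2' : k1 < k2 + 1 := by exact_mod_cast e2
  have e3' : k2 < k3 + 1 := by exact_mod_cast e3
  have e4' : k3 < k0 + 1 := by exact_mod_cast e4
  omega

/-- Two paths in the unit square, one from the left to the right side, the other from the bottom to
the top side, have a common point. -/
theorem paths_cross {a b c d : ℝ} (hab : a ≤ b) (hcd : c ≤ d) {α β : ℝ → ℝ × ℝ}
    (hα : ContinuousOn α (Icc a b)) (hβ : ContinuousOn β (Icc c d))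
    (hα' : ∀ s ∈ Icc a b, α s ∈ Icc (0:ℝ) 1 ×ˢ Icc (0:ℝ) 1)
    (hβ' : ∀ t ∈ Icc c d, β t ∈ Icc (0:ℝ) 1 ×ˢ Icc (0:ℝ) 1)
    (ha : (α a).1 = 0) (hb : (α b).1 = 1) (hc : (β c).2 = 0) (hd : (β d).2 = 1) :
    ∃ s ∈ Icc a b, ∃ t ∈ Icc c d, α s = β t := by
  have hm1 : ∀ x ∈ Icc (0:ℝ) 1, a + x * (b - a) ∈ Icc a b := by
    intro x hx
    constructor
    · nlinarith [hx.1]
    · nlinarith [hx.2]
  have hm2 : ∀ x ∈ Icc (0:ℝ) 1, c + x * (d - c) ∈ Icc c d := by
    intro x hx
    constructor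
    · nlinarith [hx.1]
    · nlinarith [hx.2]
  have hA : ContinuousOn (fun p : ℝ × ℝ => α (a + p.1 * (b - a)))
      (Icc (0:ℝ) 1 ×ˢ Icc (0:ℝ) 1) :=
    hα.comp (by fun_prop) (fun p hp => hm1 p.1 hp.1)
  have hB : ContinuousOn (fun p : ℝ × ℝ => β (c + p.2 * (d - c)))
      (Icc (0:ℝ) 1 ×ˢ Icc (0:ℝ) 1) :=
    hβ.comp (by fun_prop) (fun p hp => hm2 p.2 hp.2)
  obtain ⟨p, hp, h1, h2⟩ := miranda
    (f := fun p => (α (a + p.1 * (b - a))).1 - (β (c + p.2 * (d - c))).1)
    (g := fun p => (β (c + p.2 * (d - c))).2 - (α (a + p.1 * (b - a))).2)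
    ((continuous_fst.comp_continuousOn hA).sub (continuous_fst.comp_continuousOn hB))
    ((continuous_snd.comp_continuousOn hB).sub (continuous_snd.comp_continuousOn hA))
    (by
      intro y hy
      have h3 : a + 0 * (b - a) = a := by ring
      simp only [h3, ha]
      have := (hβ' _ (hm2 y hy)).1.1
      linarith)
    (by
      intro y hy
      have h3 : a + 1 * (b - a) = b := by ring
      simp only [h3, hb]
      have := (hβ' _ (hm2 y hy)).1.2
      linarith)
    (by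
      intro x hx
      have h3 : c + 0 * (d - c) = c := by ring
      simp only [h3, hc]
      have := (hα' _ (hm1 x hx)).2.1
      linarith)
    (by
      intro x hx
      have h3 : c + 1 * (d - c) = d := by ring
      simp only [h3, hd]
      have := (hα' _ (hm1 x hx)).2.2
      linarith)
  refine ⟨_, hm1 p.1 hp.1, _, hm2 p.2 hp.2, ?_⟩
  exact Prod.ext (by linarith) (by linarith)

/-- If `f ≤ t` on the left and `f ≥ t` on the right side, the level set `{f = t}` of the square is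
not covered by two disjoint closed sets `A`, `B` with `A` missing the top and `B` missing the bottom
side. -/
theorem no_separation {f : ℝ × ℝ → ℝ} {t : ℝ}
    (hf : ContinuousOn f (Icc (0:ℝ) 1 ×ˢ Icc (0:ℝ) 1))
    (hl : ∀ y ∈ Icc (0:ℝ) 1, f (0, y) ≤ t) (hr : ∀ y ∈ Icc (0:ℝ) 1, t ≤ f (1, y))
    {A B : Set (ℝ × ℝ)} (hA : IsClosed A) (hB : IsClosed B) (hAB : Disjoint A B)
    (hAt : ∀ x ∈ Icc (0:ℝ) 1, (x, (1:ℝ)) ∉ A) (hBb : ∀ x ∈ Icc (0:ℝ) 1, (x, (0:ℝ)) ∉ B) :
    ∃ p ∈ Icc (0:ℝ) 1 ×ˢ Icc (0:ℝ) 1, f p = t ∧ p ∉ A ∧ p ∉ B := by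
  classical
  set bot : Set (ℝ × ℝ) := Icc (0:ℝ) 1 ×ˢ {(0:ℝ)} with hbot
  set top : Set (ℝ × ℝ) := Icc (0:ℝ) 1 ×ˢ {(1:ℝ)} with htop
  have hbc : IsClosed bot := isClosed_Icc.prod isClosed_singleton
  have htc : IsClosed top := isClosed_Icc.prod isClosed_singleton
  have hdis : Disjoint (A ∪ bot) (B ∪ top) := by
    rw [Set.disjoint_left]
    rintro ⟨x, y⟩ h1 h2
    rcases h1 with h1 | h1 <;> rcases h2 with h2 | h2
    · exact (Set.disjoint_left.mp hAB) h1 h2
    · obtain ⟨h3, h4⟩ := h2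
      simp only [mem_singleton_iff] at h3 h4
      subst h4
      exact hAt x h3 h1
    · obtain ⟨h3, h4⟩ := h1
      simp only [mem_singleton_iff] at h3 h4
      subst h4
      exact hBb x h3 h2
    · obtain ⟨h3, h4⟩ := h1
      obtain ⟨h5, h6⟩ := h2
      simp only [mem_singleton_iff] at h4 h6
      rw [h4] at h6
      norm_num at h6
  obtain ⟨v, hv0, hv1, hv⟩ := exists_continuous_zero_one_of_isClosed
    (hA.union hbc) (hB.union htc) hdis
  obtain ⟨p, hp, h1, h2⟩ := miranda (f := fun p => f p - t) (g := fun p => v p - 1 / 2)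
    (hf.sub continuousOn_const) (v.continuous.continuousOn.sub continuousOn_const)
    (fun y hy => by have := hl y hy; linarith)
    (fun y hy => by have := hr y hy; linarith)
    (fun x hx => by
      have : v (x, 0) = 0 := hv0 (Or.inr ⟨hx, by simp⟩)
      simp only [this]; norm_num)
    (fun x hx => by
      have : v (x, 1) = 1 := hv1 (Or.inr ⟨hx, by simp⟩)
      simp only [this]; norm_num)
  refine ⟨p, hp, by linarith, fun hpA => ?_, fun hpB => ?_⟩
  · have : v p = 0 := hv0 (Or.inl hpA)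
    rw [this] at h2; norm_num at h2
  · have : v p = 1 := hv1 (Or.inl hpB)
    rw [this] at h2; norm_num at h2

end Pool.Agent.H90.Recip
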